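import Mathlib

namespace Pool.Agent.Results.MP_a699c4_gt.Veronese

open Set Filter Topology Metric
open scoped InnerProductSpace ContDiff

section Defs
variable {E F : Type} [NormedAddCommGroup E] [InnerProductSpace ℝ E] [FiniteDimensional ℝ E]
  [NormedAddCommGroup F] [InnerProductSpace ℝ F]

/-- the Laplace-Beltrami operator of the round unit sphere of `E`: the Euclidean Laplacian of the
extension of `φ` that is homogeneous of degree `0` -/
noncomputable def sphereLaplacian (φ : E → F) (x : E) : F :=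
  Laplacian.laplacian (fun y : E => φ (‖y‖⁻¹ • y)) x

/-- `φ` restricts to a smooth harmonic map between round unit spheres: its tension field, the part
of `Δφ` tangent to the target sphere, vanishes -/
def IsHarmonic (φ : E → F) : Prop :=
  ContDiff ℝ ∞ φ ∧ MapsTo φ (sphere 0 1) (sphere 0 1) ∧
    ∀ x ∈ sphere (0 : E) 1, ∀ v : F, ⟪φ x, v⟫_ℝ = 0 → ⟪sphereLaplacian φ x, v⟫_ℝ = 0

/-- non-constant periodic geodesic of the round unit sphere of `F`: the acceleration has no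
tangential part -/
def IsClosedGeodesic (γ : ℝ → F) : Prop :=
  ContDiff ℝ 2 γ ∧ (∀ t, γ t ∈ sphere (0 : F) 1) ∧
    (∀ t, ∀ v : F, ⟪γ t, v⟫_ℝ = 0 → ⟪deriv (deriv γ) t, v⟫_ℝ = 0) ∧
    (∃ T > 0, Function.Periodic γ T) ∧ ∃ s t, γ s ≠ γ t

/-- a bubble with image in `V` -/
def HasBubble (E : Type) [NormedAddCommGroup E] [InnerProductSpace ℝ E] [FiniteDimensional ℝ E]
    (V : Set F) : Prop :=
  ∃ φ : E → F, IsHarmonic φ ∧ MapsTo φ (sphere 0 1) V ∧
    ∃ x ∈ sphere (0 : E) 1, ∃ y ∈ sphere (0 : E) 1, φ x ≠ φ y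

/-- `V` is an open subset of the unit sphere containing no closed geodesic -/
def OpenNoGeodesic (V : Set F) : Prop :=
  (∃ U : Set F, IsOpen U ∧ V = sphere 0 1 ∩ U) ∧ ∀ γ : ℝ → F, IsClosedGeodesic γ → ¬ range γ ⊆ V

end Defs

theorem antipodal {F : Type} [NormedAddCommGroup F] [InnerProductSpace ℝ F] {γ : ℝ → F}
    (h : IsClosedGeodesic γ) : ∃ s t, γ s + γ t = 0 := by
  obtain ⟨h1, h2, h3, ⟨T, hT, hp⟩, s₀, t₀, hne⟩ := h
  have hn : ∀ t, ‖γ t‖ = 1 := fun t => by simpa using h2 t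
  have hi : ∀ t, ⟪γ t, γ t⟫_ℝ = 1 := fun t => by rw [real_inner_self_eq_norm_sq, hn]; norm_num
  have d1 : ∀ t, HasDerivAt γ (deriv γ t) t := fun t =>
    (h1.differentiable (by norm_num) t).hasDerivAt
  have d2 : ∀ t, HasDerivAt (deriv γ) (deriv (deriv γ) t) t := fun t =>
    ((h1.deriv' (n := 1)).differentiable (by norm_num) t).hasDerivAt
  have o1 : ∀ t, ⟪γ t, deriv γ t⟫_ℝ = 0 := by
    intro t
    have a := (d1 t).inner ℝ (d1 t)
    simp only [hi] at a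
    have := a.unique (hasDerivAt_const t (1 : ℝ))
    rw [real_inner_comm (γ t)] at this
    linarith
  have o2 : ∀ t, ⟪deriv (deriv γ) t, γ t⟫_ℝ = -⟪deriv γ t, deriv γ t⟫_ℝ := by
    intro t
    have a := (d1 t).inner ℝ (d2 t)
    simp only [o1] at a
    have := a.unique (hasDerivAt_const t (0 : ℝ))
    rw [real_inner_comm]
    linarith
  have o3 : ∀ t, ⟪deriv γ t, deriv γ t⟫_ℝ = ⟪deriv γ s₀, deriv γ s₀⟫_ℝ := by
    intro t
    refine is_const_of_deriv_eq_zero (f := fun t => ⟪deriv γ t, deriv γ t⟫_ℝ)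
      (fun t => ((d2 t).inner ℝ (d2 t)).differentiableAt) (fun t => ?_) t s₀
    rw [((d2 t).inner ℝ (d2 t)).deriv, real_inner_comm, h3 t _ (o1 t)]
    simp
  set c := ⟪deriv γ s₀, deriv γ s₀⟫_ℝ
  have o4 : ∀ t v, ⟪deriv (deriv γ) t, v⟫_ℝ = -c * ⟪γ t, v⟫_ℝ := by
    intro t v
    have := h3 t (v - ⟪γ t, v⟫_ℝ • γ t) (by rw [inner_sub_right, inner_smul_right, hi]; ring)
    rw [inner_sub_right, inner_smul_right, o2, o3] at this
    linarith
  have hc : c ≠ 0 := by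
    intro h0
    apply hne
    refine is_const_of_deriv_eq_zero (fun t => (d1 t).differentiableAt) (fun t => ?_) _ _
    exact inner_self_eq_zero.1 ((o3 t).trans h0)
  have u1 : ∀ t, HasDerivAt (fun t => ⟪γ t, γ s₀⟫_ℝ) ⟪deriv γ t, γ s₀⟫_ℝ t := fun t => by
    simpa using (d1 t).inner ℝ (hasDerivAt_const t (γ s₀))
  have u2 : ∀ t, HasDerivAt (fun t => ⟪deriv γ t, γ s₀⟫_ℝ) (-c * ⟪γ t, γ s₀⟫_ℝ) t := fun t => by
    simpa [o4] using (d2 t).inner ℝ (hasDerivAt_const t (γ s₀))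
  have en : ∀ t, ⟪deriv γ t, γ s₀⟫_ℝ ^ 2 + c * ⟪γ t, γ s₀⟫_ℝ ^ 2 = c := by
    intro t
    have hd : ∀ t, HasDerivAt (fun t => ⟪deriv γ t, γ s₀⟫_ℝ ^ 2 + c * ⟪γ t, γ s₀⟫_ℝ ^ 2) 0 t :=
      fun t => (((u2 t).fun_pow 2).fun_add (((u1 t).fun_pow 2).const_mul c)).congr_deriv (by simp; ring)
    have := is_const_of_deriv_eq_zero (fun t => (hd t).differentiableAt) (fun t => (hd t).deriv) t s₀
    rw [this, real_inner_comm, o1, hi]; ring
  have hcomp : IsCompact (range γ) := hp.compact_of_continuous hT.ne' h1.continuous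
  obtain ⟨_, ⟨t, rfl⟩, hmin⟩ := hcomp.exists_isMinOn (range_nonempty γ)
    (f := fun p => ⟪p, γ s₀⟫_ℝ) (by fun_prop)
  have hloc : IsLocalMin (fun t => ⟪γ t, γ s₀⟫_ℝ) t := Eventually.of_forall fun s => hmin ⟨s, rfl⟩
  have h4 := en t
  rw [hloc.hasDerivAt_eq_zero (u1 t)] at h4
  have h5 : (⟪γ t, γ s₀⟫_ℝ - 1) * (⟪γ t, γ s₀⟫_ℝ + 1) = 0 := by
    apply mul_left_cancel₀ hc; linarith
  rcases mul_eq_zero.1 h5 with h6 | h6
  · exfalso
    apply hne
    have h7 : ⟪γ t, γ s₀⟫_ℝ ≤ ⟪γ t₀, γ s₀⟫_ℝ := hmin ⟨t₀, rfl⟩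
    have h8 := norm_sub_sq_real (γ t₀) (γ s₀)
    rw [hn, hn] at h8
    have : ‖γ t₀ - γ s₀‖ ^ 2 = 0 := by nlinarith [sq_nonneg ‖γ t₀ - γ s₀‖]
    exact (sub_eq_zero.1 (norm_eq_zero.1 (pow_eq_zero_iff two_ne_zero |>.1 this))).symm
  · refine ⟨t, s₀, ?_⟩
    have h8 := norm_add_sq_real (γ t) (γ s₀)
    rw [hn, hn] at h8
    have : ‖γ t + γ s₀‖ ^ 2 = 0 := by linarith
    exact norm_eq_zero.1 (pow_eq_zero_iff two_ne_zero |>.1 this)

theorem line {E F : Type} [NormedAddCommGroup E] [NormedSpace ℝ E] [NormedAddCommGroup F]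
    [NormedSpace ℝ F] {f : E → F} {x : E} (hf : ContDiffAt ℝ 2 f x) (v : E) :
    iteratedFDeriv ℝ 2 f x ![v, v] = deriv (deriv fun t : ℝ => f (x + t • v)) 0 := by
  have hl : ∀ t : ℝ, HasDerivAt (fun t : ℝ => x + t • v) v t := fun t => by
    simpa using ((hasDerivAt_id t).smul_const v).const_add x
  have h1 : ∀ᶠ t : ℝ in 𝓝 0, ContDiffAt ℝ 2 f (x + t • v) := by
    refine (hl 0).continuousAt.eventually (p := fun y => ContDiffAt ℝ 2 f y) ?_
    simpa using hf.eventually (by norm_num)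
  have h2 : (deriv fun t : ℝ => f (x + t • v)) =ᶠ[𝓝 0] fun t => fderiv ℝ f (x + t • v) v :=
    h1.mono fun t ht => ((ht.differentiableAt (by norm_num)).hasFDerivAt.comp_hasDerivAt t (hl t)).deriv
  have h3 : HasFDerivAt (fderiv ℝ f) (fderiv ℝ (fderiv ℝ f) x) (x + (0 : ℝ) • v) := by
    simpa using ((hf.fderiv_right (m := 1) (by norm_num)).differentiableAt (by norm_num)).hasFDerivAt
  have h4 := (h3.comp_hasDerivAt 0 (hl 0)).clm_apply (hasDerivAt_const 0 v)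
  rw [h2.deriv_eq, iteratedFDeriv_two_apply]
  simpa using h4.deriv.symm

theorem second {F : Type} [NormedAddCommGroup F] [NormedSpace ℝ F] (a : ℝ) (A B C : F) :
    deriv (deriv fun t : ℝ => (1 + 2 * a * t + t ^ 2)⁻¹ • (A + (2 * t) • B + t ^ 2 • C)) 0 =
      (2 : ℝ) • C - (8 * a) • B + (8 * a ^ 2 - 2) • A := by
  have p1 : ∀ t : ℝ, HasDerivAt (fun t : ℝ => 1 + 2 * a * t + t ^ 2) (2 * a + 2 * t) t := fun t => by
    simpa using (((hasDerivAt_id t).const_mul (2 * a)).const_add 1).fun_add (hasDerivAt_pow 2 t)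
  have p2 : ∀ t : ℝ, HasDerivAt (fun t : ℝ => 2 * a + 2 * t) 2 t := fun t => by
    simpa using ((hasDerivAt_id t).const_mul 2).const_add (2 * a)
  have q1 : ∀ t : ℝ, HasDerivAt (fun t : ℝ => A + (2 * t) • B + t ^ 2 • C)
      ((2 : ℝ) • B + (2 * t) • C) t := fun t => by
    simpa using ((((hasDerivAt_id t).const_mul 2).smul_const B).const_add A).fun_add
      ((hasDerivAt_pow 2 t).smul_const C)
  have q2 : ∀ t : ℝ, HasDerivAt (fun t : ℝ => (2 : ℝ) • B + (2 * t) • C) ((2 : ℝ) • C) t := fun t => by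
    simpa using (((hasDerivAt_id t).const_mul 2).smul_const C).const_add ((2 : ℝ) • B)
  have h0 : ∀ᶠ t : ℝ in 𝓝 0, 1 + 2 * a * t + t ^ 2 ≠ 0 :=
    (p1 0).continuousAt.eventually_ne (by simp)
  have h1 := h0.mono fun t ht => (((p1 t).fun_inv ht).fun_smul (q1 t)).deriv
  rw [Filter.EventuallyEq.deriv_eq h1]
  have h2 := (((p1 0).fun_inv (by simp)).fun_smul (q2 0)).fun_add
    (((p2 0).fun_neg.fun_div ((p1 0).fun_pow 2) (by simp)).fun_smul (q1 0))
  rw [h2.deriv]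
  simp
  module

abbrev E3 : Type := EuclideanSpace ℝ (Fin 3)
abbrev E5 : Type := EuclideanSpace ℝ (Fin 5)

noncomputable def B (u v : E3) : E5 :=
  !₂[√3 * (u 0 * v 1 + u 1 * v 0) / 2, √3 * (u 0 * v 2 + u 2 * v 0) / 2,
    √3 * (u 1 * v 2 + u 2 * v 1) / 2, √3 * (u 0 * v 0 - u 1 * v 1) / 2,
    (u 0 * v 0 + u 1 * v 1 - 2 * (u 2 * v 2)) / 2]

noncomputable def φ (y : E3) : E5 := B y y

theorem φ_smul (c : ℝ) (y : E3) : φ (c • y) = c ^ 2 • φ y := by
  ext i; fin_cases i <;> simp [φ, B] <;> ring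

theorem φ_line (x e : E3) (t : ℝ) : φ (x + t • e) = φ x + (2 * t) • B x e + t ^ 2 • φ e := by
  ext i; fin_cases i <;> simp [φ, B] <;> ring

theorem φ_inner (x y : E3) : ⟪φ x, φ y⟫_ℝ = (3 * ⟪x, y⟫_ℝ ^ 2 - ‖x‖ ^ 2 * ‖y‖ ^ 2) / 2 := by
  have h : (√3 : ℝ) ^ 2 = 3 := Real.sq_sqrt (by norm_num)
  simp only [EuclideanSpace.real_norm_sq_eq, PiLp.inner_apply, Fin.sum_univ_three, Fin.sum_univ_five]
  simp [φ, B]
  linear_combination (x 0 * x 1 * y 0 * y 1 + x 0 * x 2 * y 0 * y 2 + x 1 * x 2 * y 1 * y 2 +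
    (x 0 ^ 2 - x 1 ^ 2) * (y 0 ^ 2 - y 1 ^ 2) / 4) * h

theorem φ_smooth : ContDiff ℝ ∞ φ := by
  rw [contDiff_euclidean]
  intro i
  fin_cases i <;> simp [φ, B] <;> fun_prop

theorem φ_norm {x : E3} (hx : ‖x‖ = 1) : ‖φ x‖ = 1 := by
  have := φ_inner x x
  rw [real_inner_self_eq_norm_sq, real_inner_self_eq_norm_sq, hx] at this
  have h : (‖φ x‖ - 1) * (‖φ x‖ + 1) = 0 := by linarith
  rcases mul_eq_zero.1 h with h | h <;> linarith [norm_nonneg (φ x)]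

theorem φ_lap {x : E3} (hx : ‖x‖ = 1) : sphereLaplacian φ x = (-6 : ℝ) • φ x := by
  have e : (fun y : E3 => φ (‖y‖⁻¹ • y)) = fun y => (‖y‖ ^ 2)⁻¹ • φ y := by
    ext1 y; rw [φ_smul, inv_pow]
  have hf : ContDiffAt ℝ 2 (fun y : E3 => (‖y‖ ^ 2)⁻¹ • φ y) x :=
    (((contDiff_norm_sq ℝ).contDiffAt).inv (by simp [hx])).smul
      (φ_smooth.of_le (WithTop.coe_le_coe.2 (le_top (a := (2 : ℕ∞))))).contDiffAt
  have h1 : ∀ i : Fin 3, iteratedFDeriv ℝ 2 (fun y : E3 => (‖y‖ ^ 2)⁻¹ • φ y) x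
      ![EuclideanSpace.single i 1, EuclideanSpace.single i 1] =
      (2 : ℝ) • φ (EuclideanSpace.single i 1) - (8 * x i) • B x (EuclideanSpace.single i 1) +
        (8 * x i ^ 2 - 2) • φ x := by
    intro i
    rw [line hf, ← second]
    congr 2
    ext1 t
    rw [φ_line, norm_add_sq_real, hx, inner_smul_right, EuclideanSpace.inner_single_right, norm_smul]
    simp only [PiLp.norm_single, norm_one, mul_one, Real.norm_eq_abs, sq_abs, one_pow,
      one_mul, conj_trivial]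
    congr 2
    ring
  have h2 : x 0 ^ 2 + x 1 ^ 2 + x 2 ^ 2 = 1 := by
    have := EuclideanSpace.real_norm_sq_eq x
    rw [hx, Fin.sum_univ_three] at this
    linarith
  unfold sphereLaplacian
  rw [e, InnerProductSpace.laplacian_eq_iteratedFDeriv_orthonormalBasis _ (EuclideanSpace.basisFun (Fin 3) ℝ)]
  simp only [EuclideanSpace.basisFun_apply, h1, Fin.sum_univ_three]
  have h3 : ∀ i, (φ x) i * (x 0 ^ 2 + x 1 ^ 2 + x 2 ^ 2) = (φ x) i := fun i => by rw [h2, mul_one]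
  ext i
  have := h3 i
  fin_cases i <;> simp [φ, B] at this ⊢ <;> linear_combination 8 * this

theorem result : ∃ V : Set (EuclideanSpace ℝ (Fin 5)),
    OpenNoGeodesic V ∧ HasBubble (EuclideanSpace ℝ (Fin 3)) V := by
  refine ⟨sphere 0 1 ∩ ⋃ x ∈ sphere (0 : E3) 1, ball (φ x) (1 / 4),
    ⟨⟨_, isOpen_biUnion fun _ _ => isOpen_ball, rfl⟩, fun γ hγ hV => ?_⟩, φ,
    ⟨φ_smooth, fun x hx => by simpa using φ_norm (by simpa using hx), fun x hx v hv => ?_⟩,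
    fun x hx => ⟨by simpa using φ_norm (by simpa using hx), mem_biUnion hx (mem_ball_self (by norm_num))⟩,
    EuclideanSpace.single 0 1, by simp, EuclideanSpace.single 1 1, by simp, fun h => ?_⟩
  · obtain ⟨s, t, h⟩ := antipodal hγ
    obtain ⟨x, hx, h1⟩ := mem_iUnion₂.1 (hV ⟨s, rfl⟩).2
    obtain ⟨y, hy, h2⟩ := mem_iUnion₂.1 (hV ⟨t, rfl⟩).2
    rw [mem_sphere_zero_iff_norm] at hx hy
    rw [mem_ball, dist_eq_norm] at h1 h2
    have h3 := norm_add_sq_real (φ x) (φ y)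
    rw [φ_inner, φ_norm hx, φ_norm hy, hx, hy] at h3
    have h4 : φ x + φ y = -((γ s - φ x) + (γ t - φ y)) := by
      rw [eq_neg_of_add_eq_zero_left h]; abel
    have h5 := norm_add_le (γ s - φ x) (γ t - φ y)
    rw [h4, norm_neg] at h3
    nlinarith [norm_nonneg ((γ s - φ x) + (γ t - φ y)), sq_nonneg ⟪x, y⟫_ℝ]
  · rw [φ_lap (by simpa using hx), inner_smul_left, hv, mul_zero]
  · have h1 := φ_inner (EuclideanSpace.single 0 1) (EuclideanSpace.single 1 1)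
    rw [h, real_inner_self_eq_norm_sq, φ_norm (by simp)] at h1
    simp [EuclideanSpace.inner_single_left] at h1
    norm_num at h1

end Pool.Agent.Results.MP_a699c4_gt.Veronese
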